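import Pool.Agent.Helper81.PGN.Tens
import Pool.Agent.Helper2.PGN.Defs
import Pool.Agent.Helper55.UG.TateGQ

/-!
PrimeGeometricGenus (MP_b8862a_ag), construction (4): the Mumford-Tate group of a structure on `W ⊗ W'` is not the full
group of the form.
-/

set_option linter.unusedSectionVars false

open Matrix
open scoped Kronecker

namespace MH

namespace PGN

/-! ### permutation matrices of involutions -/

section perm
variable {X : Type*} [Fintype X] [DecidableEq X] {R : Type*} [CommRing R]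

/-- the matrix of the map `f` -/
def pw (R : Type*) [Zero R] [One R] (f : X → X) : Matrix X X R := fun x y => if f x = y then 1 else 0

theorem pw_mul (f : X → X) (M : Matrix X X R) (x y : X) : (pw R f * M) x y = M (f x) y := by
  rw [Matrix.mul_apply, Finset.sum_eq_single (f x)]
  · rw [pw, if_pos rfl, one_mul]
  · intro z _ hz
    rw [pw, if_neg (Ne.symm hz), zero_mul]
  · intro h
    exact absurd (Finset.mem_univ _) h

theorem mul_pw {f : X → X} (hf : Function.Involutive f) (M : Matrix X X R) (x y : X) : (M * pw R f) x y = M x (f y) := by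
  rw [Matrix.mul_apply, Finset.sum_eq_single (f y)]
  · rw [pw, if_pos (hf y), mul_one]
  · intro z _ hz
    rw [pw, if_neg, mul_zero]
    rintro rfl
    exact hz (hf z).symm
  · intro h
    exact absurd (Finset.mem_univ _) h

theorem pw_map {R' : Type*} [CommRing R'] (f : X → X) (φ : R →+* R') : (pw R f).map φ = pw R' f := by
  ext x y
  rw [Matrix.map_apply, pw, pw]
  split_ifs
  · exact map_one φ
  · exact map_zero φ

/-- a matrix that commutes with an involution -/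
theorem pw_comm {f : X → X} (hf : Function.Involutive f) {M : Matrix X X R} (h : ∀ x y, M (f x) (f y) = M x y) :
    pw R f * M = M * pw R f := by
  ext x y
  rw [pw_mul, mul_pw hf, ← h (f x) y, hf x]

end perm

variable {ι : Type*} [Fintype ι] [DecidableEq ι]

omit [Fintype ι] [DecidableEq ι] in
/-- exchange of the first indices -/
def ps1 (x : (ι × ι) × (ι × ι)) : (ι × ι) × (ι × ι) := ((x.2.1, x.1.2), (x.1.1, x.2.2))

omit [Fintype ι] [DecidableEq ι] in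
/-- exchange of the second indices -/
def ps2 (x : (ι × ι) × (ι × ι)) : (ι × ι) × (ι × ι) := ((x.1.1, x.2.2), (x.2.1, x.1.2))

omit [Fintype ι] [DecidableEq ι] in
theorem ps1_inv : Function.Involutive (ps1 (ι := ι)) := fun _ => rfl
omit [Fintype ι] [DecidableEq ι] in
theorem ps2_inv : Function.Involutive (ps2 (ι := ι)) := fun _ => rfl

/-- the sum of the two exchanges -/
def EE (ι : Type*) [Fintype ι] [DecidableEq ι] (R : Type*) [CommRing R] :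
    Matrix ((ι × ι) × (ι × ι)) ((ι × ι) × (ι × ι)) R := pw R ps1 + pw R ps2

theorem EE_map {R R' : Type*} [CommRing R] [CommRing R'] (φ : R →+* R') : (EE ι R).map φ = EE ι R' := by
  rw [EE, EE, Matrix.map_add _ (map_add φ), pw_map, pw_map]

/-- the sum of the exchanges commutes with what acts on the first factor -/
theorem EE_comm (h : Matrix ι ι ℂ) : EE ι ℂ * ((h ⊗ₖ (1 : Matrix ι ι ℂ)) ⊗ₖ (1 : Matrix (ι × ι) (ι × ι) ℂ) +
    (1 : Matrix (ι × ι) (ι × ι) ℂ) ⊗ₖ (h ⊗ₖ (1 : Matrix ι ι ℂ))) =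
      ((h ⊗ₖ (1 : Matrix ι ι ℂ)) ⊗ₖ (1 : Matrix (ι × ι) (ι × ι) ℂ) +
    (1 : Matrix (ι × ι) (ι × ι) ℂ) ⊗ₖ (h ⊗ₖ (1 : Matrix ι ι ℂ))) * EE ι ℂ := by
  have key : ∀ (a b c d a' b' c' d' : ι),
      ((h ⊗ₖ (1 : Matrix ι ι ℂ)) ⊗ₖ (1 : Matrix (ι × ι) (ι × ι) ℂ) +
        (1 : Matrix (ι × ι) (ι × ι) ℂ) ⊗ₖ (h ⊗ₖ (1 : Matrix ι ι ℂ))) ((a, b), (c, d)) ((a', b'), (c', d')) =
      (h a a' * (1 : Matrix ι ι ℂ) c c' + h c c' * (1 : Matrix ι ι ℂ) a a') *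
        ((1 : Matrix ι ι ℂ) b b' * (1 : Matrix ι ι ℂ) d d') := by
    intro a b c d a' b' c' d'
    rw [← Matrix.one_kronecker_one, Matrix.add_apply]
    simp only [Matrix.kroneckerMap_apply]
    ring
  obtain ⟨H, hH⟩ : ∃ H, H = (h ⊗ₖ (1 : Matrix ι ι ℂ)) ⊗ₖ (1 : Matrix (ι × ι) (ι × ι) ℂ) +
        (1 : Matrix (ι × ι) (ι × ι) ℂ) ⊗ₖ (h ⊗ₖ (1 : Matrix ι ι ℂ)) := ⟨_, rfl⟩
  rw [← hH] at key ⊢
  have c1 : pw ℂ ps1 * H = H * pw ℂ ps1 := by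
    refine pw_comm ps1_inv ?_
    rintro ⟨⟨a, b⟩, ⟨c, d⟩⟩ ⟨⟨a', b'⟩, ⟨c', d'⟩⟩
    change H ((c, b), (a, d)) ((c', b'), (a', d')) = _
    rw [key, key]
    ring
  have c2 : pw ℂ ps2 * H = H * pw ℂ ps2 := by
    refine pw_comm ps2_inv ?_
    rintro ⟨⟨a, b⟩, ⟨c, d⟩⟩ ⟨⟨a', b'⟩, ⟨c', d'⟩⟩
    change H ((a, d), (c, b)) ((a', d'), (c', b')) = _
    rw [key, key]
    ring
  rw [EE, add_mul, mul_add, c1, c2]

/-- the sum of the exchanges commutes with the exchange of the two factors -/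
theorem EE_TT : EE ι ℂ * (T ι ℂ ⊗ₖ T ι ℂ) = (T ι ℂ ⊗ₖ T ι ℂ) * EE ι ℂ := by
  ext x y
  rw [EE, add_mul, mul_add, Matrix.add_apply, Matrix.add_apply, pw_mul, pw_mul, mul_pw ps1_inv, mul_pw ps2_inv]
  obtain ⟨⟨a, b⟩, ⟨c, d⟩⟩ := x
  obtain ⟨⟨a', b'⟩, ⟨c', d'⟩⟩ := y
  simp only [ps1, ps2, Matrix.kroneckerMap_apply, T, Prod.swap_prod_mk, Prod.mk.injEq]
  have e : ∀ p q : Prop, [Decidable p] → [Decidable q] → (if p ∧ q then (1 : ℂ) else 0) = (if p then 1 else 0) * (if q then 1 else 0) := by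
    intro p q _ _
    split_ifs <;> simp_all
  simp only [e]
  ring

section rat
variable (ι) (K : Type*) [Field K]

/-- the projections on `V ⊗ V` -/
def qq : Matrix ((ι × ι) × (ι × ι)) ((ι × ι) × (ι × ι)) K := pp ι K ⊗ₖ pp ι K
/-- the projections on `V ⊗ V` -/
def mm : Matrix ((ι × ι) × (ι × ι)) ((ι × ι) × (ι × ι)) K := pm ι K ⊗ₖ pm ι K

/-- the rational matrix -/
def BB : Matrix ((ι × ι) × (ι × ι)) ((ι × ι) × (ι × ι)) K :=
  (qq ι K + (1 / 2 : K) • mm ι K) * EE ι K * (qq ι K + (2 : K) • mm ι K) +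
    (1 - qq ι K - mm ι K) * EE ι K * (1 - qq ι K - mm ι K)

end rat

theorem toC_BB : toC (BB ι ℚ) = BB ι ℂ := by
  have hk : ∀ A B : Matrix (ι × ι) (ι × ι) ℚ, (A ⊗ₖ B).map (algebraMap ℚ ℂ) =
      A.map (algebraMap ℚ ℂ) ⊗ₖ B.map (algebraMap ℚ ℂ) := by
    intro A B
    ext x y
    simp [Matrix.kroneckerMap_apply]
  have hq : (qq ι ℚ).map (algebraMap ℚ ℂ) = qq ι ℂ := by rw [qq, qq, hk, pp_map]
  have hm : (mm ι ℚ).map (algebraMap ℚ ℂ) = mm ι ℂ := by rw [mm, mm, hk, pm_map]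
  have hs : ∀ (c : ℚ) (M : Matrix ((ι × ι) × (ι × ι)) ((ι × ι) × (ι × ι)) ℚ),
      (c • M).map (algebraMap ℚ ℂ) = (c : ℂ) • M.map (algebraMap ℚ ℂ) := by
    intro c M
    ext i j
    simp
  rw [toC, BB, BB, Matrix.map_add _ (map_add _), Matrix.map_mul, Matrix.map_mul, Matrix.map_mul, Matrix.map_mul,
    Matrix.map_add _ (map_add _), Matrix.map_add _ (map_add _), Matrix.map_sub _ (map_sub _),
    Matrix.map_sub _ (map_sub _), hs, hs, hq, hm, EE_map, Matrix.map_one _ (map_zero _) (map_one _)]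
  norm_num

theorem LL_eq : L ι ⊗ₖ L ι = qq ι ℂ + (2 : ℂ) • mm ι ℂ + r2 • (1 - qq ι ℂ - mm ι ℂ) := by
  have h1 : (pp ι ℂ + pm ι ℂ) ⊗ₖ (pp ι ℂ + pm ι ℂ) = 1 := by rw [pp_add_pm, Matrix.one_kronecker_one]
  rw [Matrix.add_kronecker, Matrix.kronecker_add, Matrix.kronecker_add] at h1
  rw [L, Matrix.add_kronecker, Matrix.kronecker_add, Matrix.kronecker_add, Matrix.kronecker_smul, Matrix.smul_kronecker,
    Matrix.smul_kronecker, Matrix.kronecker_smul, smul_smul, r2_sq, ← h1, qq, mm]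
  module

theorem LLi_eq : Li ι ⊗ₖ Li ι = qq ι ℂ + (1 / 2 : ℂ) • mm ι ℂ + r2⁻¹ • (1 - qq ι ℂ - mm ι ℂ) := by
  have h1 : (pp ι ℂ + pm ι ℂ) ⊗ₖ (pp ι ℂ + pm ι ℂ) = 1 := by rw [pp_add_pm, Matrix.one_kronecker_one]
  rw [Matrix.add_kronecker, Matrix.kronecker_add, Matrix.kronecker_add] at h1
  have h2 : r2⁻¹ * r2⁻¹ = 1 / 2 := by rw [← mul_inv, r2_sq, one_div]
  rw [Li, Matrix.add_kronecker, Matrix.kronecker_add, Matrix.kronecker_add, Matrix.kronecker_smul,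
    Matrix.smul_kronecker, Matrix.smul_kronecker, Matrix.kronecker_smul, smul_smul, h2, ← h1, qq, mm]
  module

theorem qq_mul_qq : qq ι ℂ * qq ι ℂ = qq ι ℂ := by
  rw [qq, ← Matrix.mul_kronecker_mul, pp_mul_pp]

theorem mm_mul_mm : mm ι ℂ * mm ι ℂ = mm ι ℂ := by
  rw [mm, ← Matrix.mul_kronecker_mul, pm_mul_pm]

theorem qq_mul_mm : qq ι ℂ * mm ι ℂ = 0 := by
  rw [qq, mm, ← Matrix.mul_kronecker_mul, pp_mul_pm, Matrix.zero_kronecker]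

theorem mm_mul_qq : mm ι ℂ * qq ι ℂ = 0 := by
  rw [qq, mm, ← Matrix.mul_kronecker_mul, pm_mul_pp, Matrix.zero_kronecker]

theorem TT_eq : T ι ℂ ⊗ₖ T ι ℂ = (2 : ℂ) • (qq ι ℂ + mm ι ℂ) - 1 := by
  have h0 : T ι ℂ = pp ι ℂ - pm ι ℂ := by
    rw [pp, pm]
    module
  have h1 : (pp ι ℂ + pm ι ℂ) ⊗ₖ (pp ι ℂ + pm ι ℂ) = 1 := by rw [pp_add_pm, Matrix.one_kronecker_one]
  rw [Matrix.add_kronecker, Matrix.kronecker_add, Matrix.kronecker_add] at h1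
  rw [h0, ← h1, sub_eq_add_neg, Matrix.add_kronecker, Matrix.kronecker_add, Matrix.kronecker_add, qq, mm,
    ← neg_one_smul ℂ (pm ι ℂ), Matrix.kronecker_smul, Matrix.smul_kronecker, Matrix.smul_kronecker,
    Matrix.kronecker_smul, smul_smul]
  module

/-- the rational matrix is the sum of the exchanges in the coordinates `Y` -/
theorem BB_eq : BB ι ℂ = (Li ι ⊗ₖ Li ι) * EE ι ℂ * (L ι ⊗ₖ L ι) := by
  obtain ⟨q, hq⟩ : ∃ q, q = qq ι ℂ := ⟨_, rfl⟩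
  obtain ⟨m, hm⟩ : ∃ m, m = mm ι ℂ := ⟨_, rfl⟩
  obtain ⟨E, hE⟩ : ∃ E, E = EE ι ℂ := ⟨_, rfl⟩
  have a1 : q * q = q := by rw [hq, qq_mul_qq]
  have a2 : m * m = m := by rw [hm, mm_mul_mm]
  have a3 : q * m = 0 := by rw [hq, hm, qq_mul_mm]
  have a4 : m * q = 0 := by rw [hq, hm, mm_mul_qq]
  have a5 : E * (q + m) = (q + m) * E := by
    have h1 := EE_TT (ι := ι)
    rw [TT_eq, ← hq, ← hm, ← hE, mul_sub, sub_mul, mul_one, one_mul, sub_left_inj, mul_smul_comm, smul_mul_assoc] at h1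
    exact smul_right_injective _ (two_ne_zero : (2 : ℂ) ≠ 0) h1
  rw [BB, LL_eq, LLi_eq, ← hq, ← hm, ← hE]
  have b1 : (q + (1 / 2 : ℂ) • m) * (q + m) = q + (1 / 2 : ℂ) • m := by
    rw [add_mul, mul_add, mul_add, a1, a3, smul_mul_assoc, smul_mul_assoc, a4, a2, smul_zero, add_zero, zero_add]
  have b2 : (q + m) * (q + (2 : ℂ) • m) = q + (2 : ℂ) • m := by
    rw [add_mul, mul_add, mul_add, a1, mul_smul_comm, mul_smul_comm, a3, a4, a2, smul_zero, add_zero, zero_add]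
  have b3 : (q + m) * (1 - q - m) = 0 := by
    rw [add_mul, mul_sub, mul_sub, mul_sub, mul_sub, a1, a2, a3, a4, mul_one, mul_one]
    abel
  have b4 : (1 - q - m) * (q + m) = 0 := by
    rw [mul_add, sub_mul, sub_mul, sub_mul, sub_mul, a1, a2, a3, a4, one_mul, one_mul]
    abel
  have c1 : (q + (1 / 2 : ℂ) • m) * E * (1 - q - m) = 0 := by
    rw [← b1, mul_assoc (q + (1 / 2 : ℂ) • m), ← a5, mul_assoc, mul_assoc, b3, mul_zero, mul_zero]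
  have c2 : (1 - q - m) * E * (q + (2 : ℂ) • m) = 0 := by
    rw [← b2, ← mul_assoc, mul_assoc _ E, a5, ← mul_assoc, b4, zero_mul, zero_mul]
  obtain ⟨A, hA⟩ : ∃ A, A = q + (1 / 2 : ℂ) • m := ⟨_, rfl⟩
  obtain ⟨B, hB⟩ : ∃ B, B = q + (2 : ℂ) • m := ⟨_, rfl⟩
  obtain ⟨D, hD⟩ : ∃ D, D = 1 - q - m := ⟨_, rfl⟩
  rw [← hA, ← hD] at c1
  rw [← hB, ← hD] at c2
  have c3 : D * E * (r2 • D) = r2 • (D * E * D) := mul_smul_comm _ _ _
  have c4 : r2⁻¹ • D * E * B = 0 := by rw [smul_mul_assoc, smul_mul_assoc, c2, smul_zero]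
  have c5 : A * E * (r2 • D) = 0 := by rw [mul_smul_comm, c1, smul_zero]
  have c6 : r2⁻¹ • D * E * (r2 • D) = D * E * D := by
    rw [smul_mul_assoc, smul_mul_assoc, c3, smul_smul, inv_mul_cancel₀ r2_ne, one_smul]
  rw [← hA, ← hB, ← hD, add_mul, add_mul, mul_add, mul_add, c4, c5, c6, add_zero, zero_add]

/-! ### the rotation -/

section rot
variable (i0 i1 : ι)

/-- the two coordinates -/
def U2 : Matrix (ι × ι) (Fin 2) ℂ := fun p k => if p = ![(i0, i0), (i1, i1)] k then 1 else 0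

/-- the rotation of the plane, minus one -/
noncomputable def W2 : Matrix (Fin 2) (Fin 2) ℂ := !![3 / 5 - 1, -(4 / 5); 4 / 5, 3 / 5 - 1]

/-- the rotation in the plane of the two coordinates -/
noncomputable def rot : Matrix (ι × ι) (ι × ι) ℂ := 1 + U2 i0 i1 * (W2 * (U2 i0 i1)ᵀ)

variable {i0 i1}

theorem U2_tr (h : i0 ≠ i1) : (U2 i0 i1)ᵀ * U2 i0 i1 = 1 := by
  ext k l
  rw [Matrix.mul_apply, Finset.sum_eq_single (![(i0, i0), (i1, i1)] k)]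
  · rw [Matrix.transpose_apply, U2, if_pos rfl, one_mul, U2, Matrix.one_apply]
    congr 1
    fin_cases k <;> fin_cases l <;> simp [h, h.symm]
  · intro p _ hp
    rw [Matrix.transpose_apply, U2, if_neg hp, zero_mul]
  · intro h
    exact absurd (Finset.mem_univ _) h

theorem W2_00 : W2 0 0 = 3 / 5 - 1 := rfl
theorem W2_01 : W2 0 1 = -(4 / 5) := rfl
theorem W2_10 : W2 1 0 = 4 / 5 := rfl
theorem W2_11 : W2 1 1 = 3 / 5 - 1 := rfl

theorem W2_orth : W2ᵀ + W2 + W2ᵀ * W2 = 0 := by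
  ext k l
  rw [Matrix.add_apply, Matrix.add_apply, Matrix.mul_apply, Fin.sum_univ_two, Matrix.transpose_apply,
    Matrix.transpose_apply, Matrix.transpose_apply, Matrix.zero_apply]
  fin_cases k <;> fin_cases l <;> simp only [Fin.zero_eta, Fin.mk_one, W2_00, W2_01, W2_10, W2_11] <;> norm_num

theorem W2_orth' : W2 + W2ᵀ + W2 * W2ᵀ = 0 := by
  ext k l
  rw [Matrix.add_apply, Matrix.add_apply, Matrix.mul_apply, Fin.sum_univ_two, Matrix.transpose_apply,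
    Matrix.transpose_apply, Matrix.transpose_apply, Matrix.zero_apply]
  fin_cases k <;> fin_cases l <;> simp only [Fin.zero_eta, Fin.mk_one, W2_00, W2_01, W2_10, W2_11] <;> norm_num

theorem rot_transpose : (rot i0 i1)ᵀ = 1 + U2 i0 i1 * (W2ᵀ * (U2 i0 i1)ᵀ) := by
  rw [rot, Matrix.transpose_add, Matrix.transpose_one, Matrix.transpose_mul, Matrix.transpose_mul,
    Matrix.transpose_transpose, Matrix.mul_assoc]

theorem rot_prod (h : i0 ≠ i1) (A B : Matrix (Fin 2) (Fin 2) ℂ) :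
    (1 + U2 i0 i1 * (A * (U2 i0 i1)ᵀ)) * (1 + U2 i0 i1 * (B * (U2 i0 i1)ᵀ)) =
      1 + U2 i0 i1 * ((A + B + A * B) * (U2 i0 i1)ᵀ) := by
  have e1 : U2 i0 i1 * (A * (U2 i0 i1)ᵀ) * (U2 i0 i1 * (B * (U2 i0 i1)ᵀ)) =
      U2 i0 i1 * ((A * B) * (U2 i0 i1)ᵀ) := by
    calc U2 i0 i1 * (A * (U2 i0 i1)ᵀ) * (U2 i0 i1 * (B * (U2 i0 i1)ᵀ))
        = U2 i0 i1 * (A * ((U2 i0 i1)ᵀ * U2 i0 i1) * (B * (U2 i0 i1)ᵀ)) := by simp only [Matrix.mul_assoc]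
      _ = _ := by rw [U2_tr h, Matrix.mul_one, ← Matrix.mul_assoc A B]
  rw [add_mul, mul_add, mul_add, one_mul, mul_one, one_mul, e1, Matrix.add_mul, Matrix.add_mul, Matrix.mul_add,
    Matrix.mul_add]
  abel

theorem rot_tr_mul (h : i0 ≠ i1) : (rot i0 i1)ᵀ * rot i0 i1 = 1 := by
  rw [rot_transpose, rot, rot_prod h, W2_orth, Matrix.zero_mul, Matrix.mul_zero, add_zero]

theorem rot_mul_tr (h : i0 ≠ i1) : rot i0 i1 * (rot i0 i1)ᵀ = 1 := by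
  rw [rot_transpose, rot, rot_prod h, W2_orth', Matrix.zero_mul, Matrix.mul_zero, add_zero]

theorem rot_det (h : i0 ≠ i1) : (rot i0 i1).det = 1 := by
  rw [rot, Matrix.det_one_add_mul_comm, Matrix.mul_assoc, U2_tr h, Matrix.mul_one, Matrix.det_fin_two]
  simp [W2]
  norm_num

theorem T_U2 : T ι ℂ * U2 i0 i1 = U2 i0 i1 := by
  ext p k
  rw [T_mul_apply, U2, U2]
  congr 1
  refine propext ⟨fun h => ?_, fun h => ?_⟩
  · rw [← Prod.swap_swap p, h]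
    fin_cases k <;> rfl
  · rw [h]
    fin_cases k <;> rfl

theorem U2_T : (U2 i0 i1)ᵀ * T ι ℂ = (U2 i0 i1)ᵀ := by
  rw [← T_transpose, ← Matrix.transpose_mul, T_U2]

theorem rot_T : rot i0 i1 * T ι ℂ = T ι ℂ * rot i0 i1 := by
  rw [rot, add_mul, mul_add, one_mul, mul_one, Matrix.mul_assoc, Matrix.mul_assoc, U2_T, ← Matrix.mul_assoc (T ι ℂ),
    T_U2]

theorem rot_L : rot i0 i1 * L ι = L ι * rot i0 i1 := by
  have e1 : rot i0 i1 * pp ι ℂ = pp ι ℂ * rot i0 i1 := by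
    rw [pp, mul_smul_comm, smul_mul_assoc, mul_add, add_mul, rot_T, mul_one, one_mul]
  have e2 : rot i0 i1 * pm ι ℂ = pm ι ℂ * rot i0 i1 := by
    rw [pm, mul_smul_comm, smul_mul_assoc, mul_sub, sub_mul, rot_T, mul_one, one_mul]
  rw [L, mul_add, add_mul, e1, mul_smul_comm, e2, smul_mul_assoc]

theorem rot_Li : rot i0 i1 * Li ι = Li ι * rot i0 i1 := by
  calc rot i0 i1 * Li ι = Li ι * L ι * (rot i0 i1 * Li ι) := by rw [Li_mul_L, one_mul]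
    _ = Li ι * (L ι * rot i0 i1) * Li ι := by simp only [mul_assoc]
    _ = Li ι * (rot i0 i1 * L ι) * Li ι := by rw [rot_L]
    _ = Li ι * rot i0 i1 * (L ι * Li ι) := by simp only [mul_assoc]
    _ = Li ι * rot i0 i1 := by rw [L_mul_Li, mul_one]

theorem Dl_U2 : Dl i0 i1 * U2 i0 i1 = (-2 : ℂ) • U2 i0 i1 := by
  ext p k
  rw [Dl, Matrix.diagonal_kronecker_diagonal, Matrix.diagonal_mul, Matrix.smul_apply, smul_eq_mul]
  by_cases h : p = ![(i0, i0), (i1, i1)] k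
  · have e1 : av i0 i1 p.1 * av' i0 i1 p.2 = -2 := by
      have h1 : chi i0 i1 p.1 = 1 := by
        rw [h]
        fin_cases k <;> simp [chi]
      have h2 : chi i0 i1 p.2 = 1 := by
        rw [h]
        fin_cases k <;> simp [chi]
      rw [av, av', h1, h2]
      push_cast
      linear_combination (-1 : ℂ) * r2_sq
    rw [e1]
  · rw [U2, if_neg h, mul_zero, mul_zero]

theorem Dl_transpose : (Dl i0 i1)ᵀ = Dl i0 i1 := by
  rw [Dl, Matrix.diagonal_kronecker_diagonal, Matrix.diagonal_transpose]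

theorem U2_Dl : (U2 i0 i1)ᵀ * Dl i0 i1 = (-2 : ℂ) • (U2 i0 i1)ᵀ := by
  rw [← Dl_transpose, ← Matrix.transpose_mul, Dl_U2, Matrix.transpose_smul]

theorem rot_Dl : Dl i0 i1 * rot i0 i1 = rot i0 i1 * Dl i0 i1 := by
  rw [rot, mul_add, add_mul, mul_one, one_mul, ← Matrix.mul_assoc, Dl_U2, Matrix.mul_assoc, Matrix.mul_assoc, U2_Dl,
    Matrix.smul_mul, Matrix.mul_smul, Matrix.mul_smul]

/-- the rotation is an isometry -/
theorem rot_isom (h : i0 ≠ i1) : (rot i0 i1)ᵀ * toC (Q4 i0 i1) * rot i0 i1 = toC (Q4 i0 i1) := by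
  have e1 : (rot i0 i1)ᵀ * L ι = L ι * (rot i0 i1)ᵀ := by
    have := congrArg Matrix.transpose (rot_L (ι := ι) (i0 := i0) (i1 := i1))
    rw [Matrix.transpose_mul, Matrix.transpose_mul, L_transpose] at this
    exact this.symm
  calc (rot i0 i1)ᵀ * toC (Q4 i0 i1) * rot i0 i1
      = ((rot i0 i1)ᵀ * L ι) * Dl i0 i1 * (L ι * rot i0 i1) := by rw [toC_Q4]; simp only [mul_assoc]
    _ = L ι * ((rot i0 i1)ᵀ * (Dl i0 i1 * rot i0 i1)) * L ι := by rw [e1, ← rot_L]; simp only [mul_assoc]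
    _ = L ι * ((rot i0 i1)ᵀ * rot i0 i1 * Dl i0 i1) * L ι := by rw [rot_Dl]; simp only [mul_assoc]
    _ = toC (Q4 i0 i1) := by rw [rot_tr_mul h, one_mul, toC_Q4]

/-- the rotation as an element of the group -/
noncomputable def rotG (h : i0 ≠ i1) : GL (ι × ι) ℂ := ⟨rot i0 i1, (rot i0 i1)ᵀ, rot_mul_tr h, rot_tr_mul h⟩

theorem rot_apply (p q : ι × ι) : rot i0 i1 p q = (1 : Matrix (ι × ι) (ι × ι) ℂ) p q +
    ∑ k, ∑ l, U2 i0 i1 p k * (W2 k l * U2 i0 i1 q l) := by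
  rw [rot, Matrix.add_apply, Matrix.mul_apply]
  simp only [Matrix.mul_apply, Matrix.transpose_apply, Finset.mul_sum]

end rot

variable {i0 i1 : ι}

/-- **The Mumford-Tate group is not the full group.** -/
theorem notMT4 {S : Finset ℤ} {P' : ℤ → Matrix ι ι ℂ} {P : ℤ → Matrix (ι × ι) (ι × ι) ℂ} (hI : Idm S P)
    (hP : ∀ p, P p = Li ι * (P' p ⊗ₖ (1 : Matrix ι ι ℂ)) * L ι) (h : i0 ≠ i1) :
    ∃ g : GL (ι × ι) ℂ, IsGQ 2 (Q4 i0 i1) g ∧ g ∉ MT S P := by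
  refine ⟨rotG h, ⟨1, fun _ => rfl, ?_, fun _ => ?_⟩, fun hg => ?_⟩
  · change (rot i0 i1)ᵀ * toC (Q4 i0 i1) * rot i0 i1 = _
    rw [rot_isom h, one_pow, one_smul]
  · change (rot i0 i1).det = _
    rw [rot_det h, one_pow]
  · have hL : (Li ι ⊗ₖ Li ι) * (L ι ⊗ₖ L ι) = 1 := by
      rw [← Matrix.mul_kronecker_mul, Li_mul_L, Matrix.one_kronecker_one]
    have hL' : (L ι ⊗ₖ L ι) * (Li ι ⊗ₖ Li ι) = 1 := by
      rw [← Matrix.mul_kronecker_mul, L_mul_Li, Matrix.one_kronecker_one]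
    obtain ⟨h', hh'⟩ : ∃ h' : Matrix ι ι ℂ, h' = ∑ p ∈ S, (p : ℂ) • P' p := ⟨_, rfl⟩
    have hx : ∑ p ∈ S, (p : ℂ) • P p = Li ι * (h' ⊗ₖ (1 : Matrix ι ι ℂ)) * L ι := by
      have e1 : h' ⊗ₖ (1 : Matrix ι ι ℂ) = ∑ p ∈ S, (p : ℂ) • (P' p ⊗ₖ (1 : Matrix ι ι ℂ)) := by
        rw [hh']
        ext x y
        simp only [Matrix.kroneckerMap_apply, Matrix.sum_apply, Matrix.smul_apply, Finset.sum_mul, smul_eq_mul, mul_assoc]
      rw [e1, Finset.mul_sum, Finset.sum_mul]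
      refine Finset.sum_congr rfl fun p _ => ?_
      rw [hP, mul_smul_comm, smul_mul_assoc]
    have hH : (∑ p ∈ S, (p : ℂ) • P p) ⊗ₖ (1 : Matrix (ι × ι) (ι × ι) ℂ) +
        (1 : Matrix (ι × ι) (ι × ι) ℂ) ⊗ₖ (∑ p ∈ S, (p : ℂ) • P p) =
        (Li ι ⊗ₖ Li ι) * ((h' ⊗ₖ (1 : Matrix ι ι ℂ)) ⊗ₖ (1 : Matrix (ι × ι) (ι × ι) ℂ) +
          (1 : Matrix (ι × ι) (ι × ι) ℂ) ⊗ₖ (h' ⊗ₖ (1 : Matrix ι ι ℂ))) * (L ι ⊗ₖ L ι) := by
      rw [mul_add, add_mul, ← Matrix.mul_kronecker_mul, ← Matrix.mul_kronecker_mul, ← Matrix.mul_kronecker_mul,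
        ← Matrix.mul_kronecker_mul, mul_one, Li_mul_L, ← hx]
    have hc := mt_comm_kron hI (B := BB ι ℚ) (by
      rw [toC_BB, BB_eq, hH]
      calc (Li ι ⊗ₖ Li ι) * ((h' ⊗ₖ (1 : Matrix ι ι ℂ)) ⊗ₖ (1 : Matrix (ι × ι) (ι × ι) ℂ) +
            (1 : Matrix (ι × ι) (ι × ι) ℂ) ⊗ₖ (h' ⊗ₖ (1 : Matrix ι ι ℂ))) * (L ι ⊗ₖ L ι) *
            ((Li ι ⊗ₖ Li ι) * EE ι ℂ * (L ι ⊗ₖ L ι))
          = (Li ι ⊗ₖ Li ι) * (((h' ⊗ₖ (1 : Matrix ι ι ℂ)) ⊗ₖ (1 : Matrix (ι × ι) (ι × ι) ℂ) +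
            (1 : Matrix (ι × ι) (ι × ι) ℂ) ⊗ₖ (h' ⊗ₖ (1 : Matrix ι ι ℂ))) * ((L ι ⊗ₖ L ι) * (Li ι ⊗ₖ Li ι)) *
              EE ι ℂ) * (L ι ⊗ₖ L ι) := by simp only [mul_assoc]
        _ = (Li ι ⊗ₖ Li ι) * (EE ι ℂ * ((L ι ⊗ₖ L ι) * (Li ι ⊗ₖ Li ι)) *
            ((h' ⊗ₖ (1 : Matrix ι ι ℂ)) ⊗ₖ (1 : Matrix (ι × ι) (ι × ι) ℂ) +
            (1 : Matrix (ι × ι) (ι × ι) ℂ) ⊗ₖ (h' ⊗ₖ (1 : Matrix ι ι ℂ)))) * (L ι ⊗ₖ L ι) := by
              rw [hL', mul_one, mul_one, EE_comm]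
        _ = _ := by simp only [mul_assoc]) hg
    change toC (BB ι ℚ) * (rot i0 i1 ⊗ₖ rot i0 i1) = (rot i0 i1 ⊗ₖ rot i0 i1) * toC (BB ι ℚ) at hc
    rw [toC_BB, BB_eq] at hc
    have c1 : (L ι ⊗ₖ L ι) * (rot i0 i1 ⊗ₖ rot i0 i1) = (rot i0 i1 ⊗ₖ rot i0 i1) * (L ι ⊗ₖ L ι) := by
      rw [← Matrix.mul_kronecker_mul, ← Matrix.mul_kronecker_mul, rot_L]
    have c2 : (rot i0 i1 ⊗ₖ rot i0 i1) * (Li ι ⊗ₖ Li ι) = (Li ι ⊗ₖ Li ι) * (rot i0 i1 ⊗ₖ rot i0 i1) := by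
      rw [← Matrix.mul_kronecker_mul, ← Matrix.mul_kronecker_mul, rot_Li]
    have hE : EE ι ℂ * (rot i0 i1 ⊗ₖ rot i0 i1) = (rot i0 i1 ⊗ₖ rot i0 i1) * EE ι ℂ := by
      calc EE ι ℂ * (rot i0 i1 ⊗ₖ rot i0 i1)
          = (L ι ⊗ₖ L ι) * ((Li ι ⊗ₖ Li ι) * EE ι ℂ * ((rot i0 i1 ⊗ₖ rot i0 i1) * (L ι ⊗ₖ L ι))) * (Li ι ⊗ₖ Li ι) := by
            calc EE ι ℂ * (rot i0 i1 ⊗ₖ rot i0 i1) = ((L ι ⊗ₖ L ι) * (Li ι ⊗ₖ Li ι)) * EE ι ℂ *
                  (rot i0 i1 ⊗ₖ rot i0 i1) * ((L ι ⊗ₖ L ι) * (Li ι ⊗ₖ Li ι)) := by rw [hL', one_mul, mul_one]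
              _ = _ := by simp only [mul_assoc]
        _ = (L ι ⊗ₖ L ι) * ((rot i0 i1 ⊗ₖ rot i0 i1) * ((Li ι ⊗ₖ Li ι) * EE ι ℂ * (L ι ⊗ₖ L ι))) *
              (Li ι ⊗ₖ Li ι) := by
            rw [← c1, ← hc]
            simp only [mul_assoc]
        _ = ((L ι ⊗ₖ L ι) * (rot i0 i1 ⊗ₖ rot i0 i1)) * (Li ι ⊗ₖ Li ι) * EE ι ℂ *
              ((L ι ⊗ₖ L ι) * (Li ι ⊗ₖ Li ι)) := by simp only [mul_assoc]
        _ = (rot i0 i1 ⊗ₖ rot i0 i1) * ((L ι ⊗ₖ L ι) * (Li ι ⊗ₖ Li ι)) * EE ι ℂ := by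
            rw [c1, hL', mul_one]
            simp only [mul_assoc]
            rw [← mul_assoc (L ι ⊗ₖ L ι), hL', one_mul]
        _ = _ := by rw [hL', mul_one]
    have hv := congrFun (congrFun hE ((i1, i0), (i0, i1))) ((i0, i0), (i0, i0))
    rw [EE, add_mul, mul_add, Matrix.add_apply, Matrix.add_apply, pw_mul, pw_mul, mul_pw ps1_inv, mul_pw ps2_inv] at hv
    simp only [ps1, ps2, Matrix.kroneckerMap_apply] at hv
    have r00 : rot i0 i1 (i0, i0) (i0, i0) = 3 / 5 := by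
      rw [rot_apply]
      simp [U2, W2, Fin.sum_univ_two, h, h.symm]
    have r10 : rot i0 i1 (i1, i1) (i0, i0) = 4 / 5 := by
      rw [rot_apply]
      simp [U2, W2, Fin.sum_univ_two, h, h.symm]
    have r2' : rot i0 i1 (i1, i0) (i0, i0) = 0 := by
      rw [rot_apply]
      simp [U2, W2, Fin.sum_univ_two, h, h.symm]
    rw [r00, r10, r2'] at hv
    norm_num at hv

end PGN

end MH
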