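import Pool.Agent.Helper14.GH.HW3

/-!
Project PrimeGeometricGenus (MP_b8862a_ag): rational matrices on `V ⊗ V` that commute with the Hodge cocharacter commute
with the Mumford-Tate group.
-/

set_option linter.unusedSectionVars false

open Matrix
open scoped Kronecker

namespace MH

section slots

variable {R n : Type*} [CommRing R] [Fintype n] [DecidableEq n]

/-- the tensor of type (2, 2) of a matrix -/
def k22 (B : Matrix (n × n) (n × n) R) : (Fin 2 ⊕ Fin 2 → n) → R :=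
  fun i => B (i (Sum.inl 0), i (Sum.inl 1)) (i (Sum.inr 0), i (Sum.inr 1))

/-- quadruples as functions -/
def pk22 : (n × n) × (n × n) ≃ (Fin 2 ⊕ Fin 2 → n) where
  toFun p := Sum.elim ![p.1.1, p.1.2] ![p.2.1, p.2.2]
  invFun j := ((j (Sum.inl 0), j (Sum.inl 1)), (j (Sum.inr 0), j (Sum.inr 1)))
  left_inv p := rfl
  right_inv j := by
    funext k
    rcases k with k | k
    · fin_cases k <;> rfl
    · fin_cases k <;> rfl

theorem actF_k22 (M : Fin 2 ⊕ Fin 2 → Matrix n n R) (B : Matrix (n × n) (n × n) R) :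
    actF M (k22 B) =
      k22 ((M (Sum.inl 0) ⊗ₖ M (Sum.inl 1)) * B * ((M (Sum.inr 0))ᵀ ⊗ₖ (M (Sum.inr 1))ᵀ)) := by
  funext i
  unfold actF
  rw [← (pk22 (n := n)).sum_comp, Fintype.sum_prod_type]
  have e1 : ∀ x y : n × n, (∏ k, M k (i k) (pk22 (x, y) k)) * k22 B (pk22 (x, y)) =
      (M (Sum.inl 0) ⊗ₖ M (Sum.inl 1)) (i (Sum.inl 0), i (Sum.inl 1)) x * B x y *
        ((M (Sum.inr 0))ᵀ ⊗ₖ (M (Sum.inr 1))ᵀ) y (i (Sum.inr 0), i (Sum.inr 1)) := by
    intro x y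
    rw [Fintype.prod_sum_type]
    simp only [Fin.prod_univ_two, Matrix.kroneckerMap_apply, Matrix.transpose_apply]
    have h1 : (pk22 (x, y)) (Sum.inl 0) = x.1 := rfl
    have h2 : (pk22 (x, y)) (Sum.inl 1) = x.2 := rfl
    have h3 : (pk22 (x, y)) (Sum.inr 0) = y.1 := rfl
    have h4 : (pk22 (x, y)) (Sum.inr 1) = y.2 := rfl
    have h5 : k22 B (pk22 (x, y)) = B x y := rfl
    rw [h1, h2, h3, h4, h5]
    ring
  simp only [e1]
  unfold k22
  rw [Matrix.mul_apply, Finset.sum_comm]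
  refine Finset.sum_congr rfl fun y _ => ?_
  rw [Matrix.mul_apply, Finset.sum_mul]

omit [Fintype n] [DecidableEq n] in
theorem k22_inj {A B : Matrix (n × n) (n × n) R} (h : k22 A = k22 B) : A = B := by
  ext x y
  exact congrFun h (Sum.elim ![x.1, x.2] ![y.1, y.2])

theorem dL_k22 (B : Matrix (n × n) (n × n) R) (X : Matrix n n R) :
    dL 2 2 (k22 B) X = k22 ((X ⊗ₖ 1 + 1 ⊗ₖ X) * B - B * (X ⊗ₖ 1 + 1 ⊗ₖ X)) := by
  rw [dL_apply]
  unfold dact
  rw [Fintype.sum_sum_type, Fin.sum_univ_two, Fin.sum_univ_two]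
  simp only [actF_k22]
  have e0 : ∀ (k l : Fin 2 ⊕ Fin 2), l ≠ k →
      Function.update (fun _ => (1 : Matrix n n R)) k (lslot 2 2 X k) l = 1 := by
    intro k l h
    rw [Function.update_of_ne h]
  rw [Function.update_self, Function.update_self, Function.update_self, Function.update_self,
    e0 (Sum.inl 0) (Sum.inl 1) (by simp), e0 (Sum.inl 0) (Sum.inr 0) (by simp), e0 (Sum.inl 0) (Sum.inr 1) (by simp),
    e0 (Sum.inl 1) (Sum.inl 0) (by simp), e0 (Sum.inl 1) (Sum.inr 0) (by simp), e0 (Sum.inl 1) (Sum.inr 1) (by simp),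
    e0 (Sum.inr 0) (Sum.inl 0) (by simp), e0 (Sum.inr 0) (Sum.inl 1) (by simp), e0 (Sum.inr 0) (Sum.inr 1) (by simp),
    e0 (Sum.inr 1) (Sum.inl 0) (by simp), e0 (Sum.inr 1) (Sum.inl 1) (by simp), e0 (Sum.inr 1) (Sum.inr 0) (by simp)]
  simp only [lslot, Sum.elim_inl, Sum.elim_inr, Matrix.transpose_one, Matrix.transpose_neg, Matrix.transpose_transpose,
    Matrix.one_kronecker_one, Matrix.mul_one, Matrix.one_mul]
  funext i
  simp only [k22, Pi.add_apply, Matrix.sub_apply, Matrix.add_mul, Matrix.mul_add, Matrix.add_apply]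
  have e2 : (-X) ⊗ₖ (1 : Matrix n n R) = -(X ⊗ₖ (1 : Matrix n n R)) := by
    ext a b
    simp [Matrix.kroneckerMap_apply]
  have e3 : (1 : Matrix n n R) ⊗ₖ (-X) = -((1 : Matrix n n R) ⊗ₖ X) := by
    ext a b
    simp [Matrix.kroneckerMap_apply]
  rw [e2, e3, Matrix.mul_neg, Matrix.mul_neg, Matrix.neg_apply, Matrix.neg_apply]
  ring

end slots

variable {n : Type*} [Fintype n] [DecidableEq n]
variable {S : Finset ℤ} {P : ℤ → Matrix n n ℂ}

/-- **A rational matrix on `V ⊗ V` that commutes with the Hodge cocharacter commutes with the Mumford-Tate group.** -/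
theorem mt_comm_kron (hP : Idm S P) {B : Matrix (n × n) (n × n) ℚ}
    (hB : ((∑ p ∈ S, (p : ℂ) • P p) ⊗ₖ (1 : Matrix n n ℂ) + (1 : Matrix n n ℂ) ⊗ₖ (∑ p ∈ S, (p : ℂ) • P p)) * toC B =
      toC B * ((∑ p ∈ S, (p : ℂ) • P p) ⊗ₖ (1 : Matrix n n ℂ) + (1 : Matrix n n ℂ) ⊗ₖ (∑ p ∈ S, (p : ℂ) • P p)))
    {g : GL n ℂ} (hg : g ∈ MT S P) :
    toC B * ((g : Matrix n n ℂ) ⊗ₖ (g : Matrix n n ℂ)) = ((g : Matrix n n ℂ) ⊗ₖ (g : Matrix n n ℂ)) * toC B := by
  have h1 : IsHodgeTensor S P 2 2 (k22 B) := by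
    have h2 : dL 2 2 (tC (k22 B)) (∑ p ∈ S, (p : ℂ) • P p) = 0 := by
      change dL 2 2 (k22 (toC B)) (∑ p ∈ S, (p : ℂ) • P p) = 0
      rw [dL_k22, hB, sub_self]
      rfl
    exact (hP.inv_iff 2 2 (tC (k22 B))).2 h2
  have h3 : actF (slot 2 2 (g : Matrix n n ℂ) ((g⁻¹ : GL n ℂ) : Matrix n n ℂ)) (k22 (toC B)) = k22 (toC B) :=
    hg 2 2 (k22 B) h1
  rw [actF_k22] at h3
  have h4 := k22_inj h3
  simp only [slot, Sum.elim_inl, Sum.elim_inr, Matrix.transpose_transpose] at h4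
  have h5 : ((g : Matrix n n ℂ) ⊗ₖ (g : Matrix n n ℂ)) * toC B = toC B * ((g : Matrix n n ℂ) ⊗ₖ (g : Matrix n n ℂ)) := by
    have h6 := congrArg (· * ((g : Matrix n n ℂ) ⊗ₖ (g : Matrix n n ℂ))) h4
    simp only [Matrix.mul_assoc] at h6
    rw [← Matrix.mul_kronecker_mul, ← Units.val_mul, inv_mul_cancel, Units.val_one, Matrix.one_kronecker_one,
      Matrix.mul_one] at h6
    exact h6
  exact h5.symm

end MH
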