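import Pool.Agent.Helper94.SH.Defs5

/-!
PrimeGeometricGenus (MP_b8862a_ag), construction (5): the commutant of the symplectic Lie algebra on the primitive part of the
exterior square.
-/

set_option linter.unusedSectionVars false

open Matrix
open scoped Kronecker

namespace SH94

open MH MH.PGN

/-- the vector of a matrix -/
def vc (X : Matrix W W ℚ) : W × W → ℚ := fun p => X p.1 p.2

theorem vc_add (X Y : Matrix W W ℚ) : vc (X + Y) = vc X + vc Y := rfl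

theorem vc_smul (r : ℚ) (X : Matrix W W ℚ) : vc (r • X) = r • vc X := rfl

theorem D_vc (Y X : Matrix W W ℚ) : D Y *ᵥ vc X = vc (Y * X + X * Yᵀ) := by
  funext p
  obtain ⟨i, j⟩ := p
  rw [D, Matrix.add_mulVec, Pi.add_apply]
  have e1 : ((Y ⊗ₖ (1 : Matrix W W ℚ)) *ᵥ vc X) (i, j) = (Y * X) i j := by
    rw [Matrix.mulVec, dotProduct, Fintype.sum_prod_type, Matrix.mul_apply]
    refine Finset.sum_congr rfl fun k _ => ?_
    rw [Finset.sum_eq_single j]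
    · rw [Matrix.kroneckerMap_apply, Matrix.one_apply_eq, mul_one, vc]
    · intro l _ hl
      rw [Matrix.kroneckerMap_apply, Matrix.one_apply_ne (Ne.symm hl), mul_zero, zero_mul]
    · intro h
      exact absurd (Finset.mem_univ _) h
  have e2 : (((1 : Matrix W W ℚ) ⊗ₖ Y) *ᵥ vc X) (i, j) = (X * Yᵀ) i j := by
    rw [Matrix.mulVec, dotProduct, Fintype.sum_prod_type, Matrix.mul_apply, Finset.sum_eq_single i]
    · refine Finset.sum_congr rfl fun k _ => ?_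
      rw [Matrix.kroneckerMap_apply, Matrix.one_apply_eq, one_mul, vc, Matrix.transpose_apply, mul_comm]
    · intro l _ hl
      refine Finset.sum_eq_zero fun k _ => ?_
      rw [Matrix.kroneckerMap_apply, Matrix.one_apply_ne (Ne.symm hl), zero_mul, zero_mul]
    · intro h
      exact absurd (Finset.mem_univ _) h
  rw [e1, e2]
  rfl

theorem DU_vc {S : Matrix (Fin 3) (Fin 3) ℚ} (hS : Sᵀ = S) (a b c d : Matrix (Fin 3) (Fin 3) ℚ) :
    D (nU S) *ᵥ vc (fromBlocks a b c d) = vc (fromBlocks (S * c + b * S) (S * d) (d * S) 0) := by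
  rw [D_vc, nU, Matrix.fromBlocks_transpose, hS, Matrix.fromBlocks_multiply, Matrix.fromBlocks_multiply,
    Matrix.fromBlocks_add]
  simp

theorem DL_vc {S : Matrix (Fin 3) (Fin 3) ℚ} (hS : Sᵀ = S) (a b c d : Matrix (Fin 3) (Fin 3) ℚ) :
    D (nL S) *ᵥ vc (fromBlocks a b c d) = vc (fromBlocks 0 (a * S) (S * a) (S * b + c * S)) := by
  rw [D_vc, nL, Matrix.fromBlocks_transpose, hS, Matrix.fromBlocks_multiply, Matrix.fromBlocks_multiply,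
    Matrix.fromBlocks_add]
  simp

theorem e6_apply (x : W × W → ℚ) (p : W × W) : (e6 ℚ *ᵥ x) p =
    (1 / 2 : ℚ) * (x p - x p.swap) - (1 / 6 : ℚ) * (psi ℚ p.1 p.2 * ∑ q : W × W, psi ℚ q.1 q.2 * x q) := by
  rw [e6, Matrix.sub_mulVec, Matrix.smul_mulVec, Matrix.sub_mulVec, Matrix.one_mulVec, Pi.sub_apply, Pi.smul_apply,
    Pi.sub_apply, smul_eq_mul]
  have e1 : (T W ℚ *ᵥ x) p = x p.swap := by
    rw [Matrix.mulVec, dotProduct, Finset.sum_eq_single p.swap]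
    · rw [T, if_pos (Prod.swap_swap p).symm, one_mul]
    · intro q _ hq
      rw [T, if_neg, zero_mul]
      rintro rfl
      exact hq (Prod.swap_swap q).symm
    · intro h
      exact absurd (Finset.mem_univ _) h
  have e2 : (E ℚ *ᵥ x) p = (1 / 6 : ℚ) * (psi ℚ p.1 p.2 * ∑ q : W × W, psi ℚ q.1 q.2 * x q) := by
    rw [Matrix.mulVec, dotProduct, Finset.mul_sum, Finset.mul_sum]
    refine Finset.sum_congr rfl fun q _ => ?_
    rw [E]
    ring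
  rw [e1, e2]

theorem p11 (i j : Fin 3) : psi ℚ (Sum.inl i) (Sum.inl j) = 0 := rfl
theorem p22 (i j : Fin 3) : psi ℚ (Sum.inr i) (Sum.inr j) = 0 := rfl
theorem p12 (i j : Fin 3) : psi ℚ (Sum.inl i) (Sum.inr j) = (1 : Matrix (Fin 3) (Fin 3) ℚ) i j := rfl
theorem p21 (i j : Fin 3) : psi ℚ (Sum.inr i) (Sum.inl j) = -(1 : Matrix (Fin 3) (Fin 3) ℚ) i j := rfl

theorem sum_psi (x : W × W → ℚ) : ∑ q : W × W, psi ℚ q.1 q.2 * x q =
    ∑ i : Fin 3, (x (Sum.inl i, Sum.inr i) - x (Sum.inr i, Sum.inl i)) := by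
  rw [Fintype.sum_prod_type, Fintype.sum_sum_type, Finset.sum_sub_distrib, sub_eq_add_neg]
  congr 1
  · refine Finset.sum_congr rfl fun i _ => ?_
    rw [Fintype.sum_sum_type]
    simp only [p11, p12, zero_mul, Finset.sum_const_zero, zero_add]
    rw [Finset.sum_eq_single i]
    · rw [Matrix.one_apply_eq, one_mul]
    · intro j _ hj
      rw [Matrix.one_apply_ne (Ne.symm hj), zero_mul]
    · intro h
      exact absurd (Finset.mem_univ _) h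
  · rw [← Finset.sum_neg_distrib]
    refine Finset.sum_congr rfl fun i _ => ?_
    rw [Fintype.sum_sum_type]
    simp only [p22, p21, zero_mul, Finset.sum_const_zero, add_zero]
    rw [Finset.sum_eq_single i]
    · rw [Matrix.one_apply_eq]
      ring
    · intro j _ hj
      rw [Matrix.one_apply_ne (Ne.symm hj)]
      ring
    · intro h
      exact absurd (Finset.mem_univ _) h

/-- skew matrices without trace are fixed -/
theorem e6_of {a b d : Matrix (Fin 3) (Fin 3) ℚ} (ha : aᵀ = -a) (hd : dᵀ = -d) (hb : b.trace = 0) :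
    e6 ℚ *ᵥ vc (fromBlocks a b (-bᵀ) d) = vc (fromBlocks a b (-bᵀ) d) := by
  have ht : ∑ q : W × W, psi ℚ q.1 q.2 * vc (fromBlocks a b (-bᵀ) d) q = 0 := by
    rw [sum_psi]
    have e1 : ∀ i : Fin 3, vc (fromBlocks a b (-bᵀ) d) (Sum.inl i, Sum.inr i) -
        vc (fromBlocks a b (-bᵀ) d) (Sum.inr i, Sum.inl i) = 2 * b i i := by
      intro i
      change b i i - (-bᵀ) i i = _
      rw [Matrix.neg_apply, Matrix.transpose_apply]
      ring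
    simp only [e1]
    rw [← Finset.mul_sum]
    change 2 * b.trace = 0
    rw [hb, mul_zero]
  funext p
  rw [e6_apply, ht, mul_zero, mul_zero, sub_zero]
  have hs : vc (fromBlocks a b (-bᵀ) d) p.swap = -vc (fromBlocks a b (-bᵀ) d) p := by
    obtain ⟨i | i, j | j⟩ := p
    · exact congrFun (congrFun ha i) j
    · rfl
    · change b j i = -(-bᵀ) i j
      rw [Matrix.neg_apply, Matrix.transpose_apply, neg_neg]
    · exact congrFun (congrFun hd i) j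
  rw [hs]
  ring

/-- a vector fixed by the projection is a skew matrix without trace -/
theorem e6_fixed (x : W × W → ℚ) : ∃ a b d : Matrix (Fin 3) (Fin 3) ℚ, aᵀ = -a ∧ dᵀ = -d ∧ b.trace = 0 ∧
    e6 ℚ *ᵥ x = vc (fromBlocks a b (-bᵀ) d) := by
  refine ⟨Matrix.of fun i j => (e6 ℚ *ᵥ x) (Sum.inl i, Sum.inl j), Matrix.of fun i j => (e6 ℚ *ᵥ x) (Sum.inl i, Sum.inr j),
    Matrix.of fun i j => (e6 ℚ *ᵥ x) (Sum.inr i, Sum.inr j), ?_, ?_, ?_, ?_⟩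
  · ext i j
    simp only [Matrix.transpose_apply, Matrix.neg_apply, Matrix.of_apply, e6_apply, Prod.swap_prod_mk, p11]
    ring
  · ext i j
    simp only [Matrix.transpose_apply, Matrix.neg_apply, Matrix.of_apply, e6_apply, Prod.swap_prod_mk, p22]
    ring
  · have e3 : ∀ i : Fin 3, (e6 ℚ *ᵥ x) (Sum.inl i, Sum.inr i) =
        (1 / 2 : ℚ) * (x (Sum.inl i, Sum.inr i) - x (Sum.inr i, Sum.inl i)) -
          (1 / 6 : ℚ) * ∑ i : Fin 3, (x (Sum.inl i, Sum.inr i) - x (Sum.inr i, Sum.inl i)) := by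
      intro i
      rw [e6_apply, p12, Matrix.one_apply_eq, one_mul, sum_psi]
      rfl
    rw [Matrix.trace]
    simp only [Matrix.diag_apply, Matrix.of_apply, e3]
    rw [Finset.sum_sub_distrib, ← Finset.mul_sum]
    simp only [Finset.sum_const, Finset.card_univ, Fintype.card_fin, nsmul_eq_mul]
    push_cast
    ring
  · funext p
    obtain ⟨i | i, j | j⟩ := p
    · rfl
    · rfl
    · change _ = (-(Matrix.of fun i j => (e6 ℚ *ᵥ x) (Sum.inl i, Sum.inr j))ᵀ) i j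
      rw [Matrix.neg_apply, Matrix.transpose_apply, Matrix.of_apply, e6_apply, e6_apply, p21, p12, Prod.swap_prod_mk,
        Prod.swap_prod_mk, Matrix.one_apply, Matrix.one_apply]
      by_cases hij : i = j
      · subst hij
        simp only [if_true]
        ring
      · rw [if_neg hij, if_neg (Ne.symm hij)]
        ring
    · rfl

theorem e6_sq : e6 ℚ * e6 ℚ = e6 ℚ := by
  refine Matrix.toLin'.injective (LinearMap.ext fun x => ?_)
  rw [Matrix.toLin'_apply, Matrix.toLin'_apply, ← Matrix.mulVec_mulVec]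
  obtain ⟨a, b, d, ha, hd, hb, hx⟩ := e6_fixed x
  rw [hx, e6_of ha hd hb]

/-- a 3 by 3 matrix -/
def M9 (a b c d e f g h k : ℚ) : Matrix (Fin 3) (Fin 3) ℚ := !![a, b, c; d, e, f; g, h, k]

theorem M9_T (a b c d e f g h k : ℚ) : (M9 a b c d e f g h k)ᵀ = M9 a d g b e h c f k := by
  ext i j
  fin_cases i <;> fin_cases j <;> rfl

theorem M9_neg (a b c d e f g h k : ℚ) : -(M9 a b c d e f g h k) = M9 (-a) (-b) (-c) (-d) (-e) (-f) (-g) (-h) (-k) := by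
  ext i j
  fin_cases i <;> fin_cases j <;> rfl

theorem M9_add (a b c d e f g h k a' b' c' d' e' f' g' h' k' : ℚ) : M9 a b c d e f g h k + M9 a' b' c' d' e' f' g' h' k' =
    M9 (a + a') (b + b') (c + c') (d + d') (e + e') (f + f') (g + g') (h + h') (k + k') := by
  ext i j
  fin_cases i <;> fin_cases j <;> rfl

theorem M9_smul (r a b c d e f g h k : ℚ) : r • M9 a b c d e f g h k =
    M9 (r * a) (r * b) (r * c) (r * d) (r * e) (r * f) (r * g) (r * h) (r * k) := by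
  ext i j
  fin_cases i <;> fin_cases j <;> rfl

theorem M9_mul (a b c d e f g h k a' b' c' d' e' f' g' h' k' : ℚ) : M9 a b c d e f g h k * M9 a' b' c' d' e' f' g' h' k' =
    M9 (a * a' + b * d' + c * g') (a * b' + b * e' + c * h') (a * c' + b * f' + c * k')
      (d * a' + e * d' + f * g') (d * b' + e * e' + f * h') (d * c' + e * f' + f * k')
      (g * a' + h * d' + k * g') (g * b' + h * e' + k * h') (g * c' + h * f' + k * k') := by
  rw [M9, M9, Matrix.mul_fin_three]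
  rfl

theorem M9_zero : (0 : Matrix (Fin 3) (Fin 3) ℚ) = M9 0 0 0 0 0 0 0 0 0 := by
  ext i j
  fin_cases i <;> fin_cases j <;> rfl

theorem M9_eta (a : Matrix (Fin 3) (Fin 3) ℚ) : a = M9 (a 0 0) (a 0 1) (a 0 2) (a 1 0) (a 1 1) (a 1 2) (a 2 0) (a 2 1) (a 2 2) := by
  ext i j
  fin_cases i <;> fin_cases j <;> rfl

theorem M9_skew {a : Matrix (Fin 3) (Fin 3) ℚ} (ha : aᵀ = -a) :
    a = M9 0 (a 0 1) (a 0 2) (-a 0 1) 0 (a 1 2) (-a 0 2) (-a 1 2) 0 := by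
  have ha' : ∀ i j, a j i = -a i j := fun i j => by
    have := congrFun (congrFun ha i) j
    rwa [Matrix.transpose_apply, Matrix.neg_apply] at this
  have A0 : a 0 0 = 0 := by linarith [ha' 0 0]
  have A1 : a 1 1 = 0 := by linarith [ha' 1 1]
  have A2 : a 2 2 = 0 := by linarith [ha' 2 2]
  conv_lhs => rw [M9_eta a, A0, A1, A2, ha' 0 1, ha' 0 2, ha' 1 2]

/-- **The commutant is the line of the projection.** -/
theorem end5 {A : Matrix (W × W) (W × W) ℚ} (hA : e6 ℚ * A * e6 ℚ = A)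
    (hU : ∀ S : Matrix (Fin 3) (Fin 3) ℚ, Sᵀ = S → A * D (nU S) = D (nU S) * A)
    (hL : ∀ S : Matrix (Fin 3) (Fin 3) ℚ, Sᵀ = S → A * D (nL S) = D (nL S) * A) : ∃ c : ℚ, A = c • e6 ℚ := by
  have hU' : ∀ S : Matrix (Fin 3) (Fin 3) ℚ, Sᵀ = S → ∀ x, A *ᵥ (D (nU S) *ᵥ x) = D (nU S) *ᵥ (A *ᵥ x) := by
    intro S hS x
    rw [Matrix.mulVec_mulVec, hU S hS, ← Matrix.mulVec_mulVec]
  have hL' : ∀ S : Matrix (Fin 3) (Fin 3) ℚ, Sᵀ = S → ∀ x, A *ᵥ (D (nL S) *ᵥ x) = D (nL S) *ᵥ (A *ᵥ x) := by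
    intro S hS x
    rw [Matrix.mulVec_mulVec, hL S hS, ← Matrix.mulVec_mulVec]
  -- the scalar
  obtain ⟨x0, hx0⟩ : ∃ x0, x0 = vc (fromBlocks 0 0 0 (M9 0 1 0 (-1) 0 0 0 0 0)) := ⟨_, rfl⟩
  obtain ⟨a0, b0, d0, -, hd0, -, hy0⟩ := e6_fixed (A *ᵥ (e6 ℚ *ᵥ x0))
  have hAx0 : A *ᵥ x0 = vc (fromBlocks a0 b0 (-b0ᵀ) d0) := by
    rw [← hy0, Matrix.mulVec_mulVec, Matrix.mulVec_mulVec, hA]
  obtain ⟨c, hc⟩ : ∃ c, c = d0 0 1 := ⟨_, rfl⟩
  obtain ⟨K, hK⟩ : ∃ K : Matrix W W ℚ → Prop, ∀ X, K X ↔ A *ᵥ vc X = c • vc X := ⟨_, fun X => Iff.rfl⟩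
  have hKadd : ∀ X Y, K X → K Y → K (X + Y) := by
    intro X Y hX hY
    rw [hK] at hX hY ⊢
    rw [vc_add, Matrix.mulVec_add, hX, hY, smul_add]
  have hKsm : ∀ (r : ℚ) X, K X → K (r • X) := by
    intro r X hX
    rw [hK] at hX ⊢
    rw [vc_smul, Matrix.mulVec_smul, hX, smul_comm]
  have hKU : ∀ S : Matrix (Fin 3) (Fin 3) ℚ, Sᵀ = S → ∀ a b c d, K (fromBlocks a b c d) →
      K (fromBlocks (S * c + b * S) (S * d) (d * S) 0) := by
    intro S hS a b c' d h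
    rw [hK] at h ⊢
    rw [← DU_vc hS, hU' S hS, h, Matrix.mulVec_smul]
  have hKL : ∀ S : Matrix (Fin 3) (Fin 3) ℚ, Sᵀ = S → ∀ a b c d, K (fromBlocks a b c d) →
      K (fromBlocks 0 (a * S) (S * a) (S * b + c * S)) := by
    intro S hS a b c' d h
    rw [hK] at h ⊢
    rw [← DL_vc hS, hL' S hS, h, Matrix.mulVec_smul]
  -- the first vector
  have a12 : K (fromBlocks (M9 0 1 0 (-1) 0 0 0 0 0) 0 0 0) := by
    rw [hK]
    have e1 : D (nU (M9 1 0 0 0 0 0 0 0 0)) *ᵥ (D (nU (M9 0 0 0 0 1 0 0 0 0)) *ᵥ x0) =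
        vc (fromBlocks (M9 0 1 0 (-1) 0 0 0 0 0) 0 0 0) := by
      rw [hx0, DU_vc (M9_T _ _ _ _ _ _ _ _ _), DU_vc (M9_T _ _ _ _ _ _ _ _ _)]
      simp only [M9_zero, M9_mul, M9_add]
      norm_num
    have e2 : D (nU (M9 1 0 0 0 0 0 0 0 0)) *ᵥ (D (nU (M9 0 0 0 0 1 0 0 0 0)) *ᵥ (A *ᵥ x0)) =
        c • vc (fromBlocks (M9 0 1 0 (-1) 0 0 0 0 0) 0 0 0) := by
      rw [hAx0, DU_vc (M9_T _ _ _ _ _ _ _ _ _), DU_vc (M9_T _ _ _ _ _ _ _ _ _), ← vc_smul, Matrix.fromBlocks_smul,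
        M9_skew hd0, ← hc]
      simp only [M9_zero, M9_mul, M9_add, M9_smul]
      norm_num
    rw [← e1, hU' _ (M9_T _ _ _ _ _ _ _ _ _), hU' _ (M9_T _ _ _ _ _ _ _ _ _), e2, e1]
  -- the rules
  have rB : ∀ (a S b : Matrix (Fin 3) (Fin 3) ℚ), K (fromBlocks a 0 0 0) → Sᵀ = S → a * S = b → S * a = -bᵀ →
      K (fromBlocks 0 b (-bᵀ) 0) := by
    intro a S b h hS h1 h2
    have := hKL S hS _ _ _ _ h
    rw [h1, h2, Matrix.mul_zero, Matrix.zero_mul, add_zero] at this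
    exact this
  have rA : ∀ (b S a : Matrix (Fin 3) (Fin 3) ℚ), K (fromBlocks 0 b (-bᵀ) 0) → Sᵀ = S → S * -bᵀ + b * S = a →
      K (fromBlocks a 0 0 0) := by
    intro b S a h hS h1
    have := hKU S hS _ _ _ _ h
    rw [h1, Matrix.mul_zero, Matrix.zero_mul] at this
    exact this
  have rD : ∀ (b S d : Matrix (Fin 3) (Fin 3) ℚ), K (fromBlocks 0 b (-bᵀ) 0) → Sᵀ = S → S * b + -bᵀ * S = d →
      K (fromBlocks 0 0 0 d) := by
    intro b S d h hS h1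
    have := hKL S hS _ _ _ _ h
    rw [h1, Matrix.mul_zero, Matrix.zero_mul] at this
    exact this
  have b12 := rB _ (M9 0 0 0 0 1 0 0 0 0) (M9 0 1 0 0 0 0 0 0 0) a12 (M9_T _ _ _ _ _ _ _ _ _)
    (by simp only [M9_mul]; norm_num) (by simp only [M9_mul, M9_T, M9_neg]; norm_num)
  have b21 := rB _ (M9 1 0 0 0 0 0 0 0 0) (M9 0 0 0 (-1) 0 0 0 0 0) a12 (M9_T _ _ _ _ _ _ _ _ _)
    (by simp only [M9_mul]; norm_num) (by simp only [M9_mul, M9_T, M9_neg]; norm_num)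
  have b13 := rB _ (M9 0 0 0 0 0 1 0 1 0) (M9 0 0 1 0 0 0 0 0 0) a12 (M9_T _ _ _ _ _ _ _ _ _)
    (by simp only [M9_mul]; norm_num) (by simp only [M9_mul, M9_T, M9_neg]; norm_num)
  have b23 := rB _ (M9 0 0 1 0 0 0 1 0 0) (M9 0 0 0 0 0 (-1) 0 0 0) a12 (M9_T _ _ _ _ _ _ _ _ _)
    (by simp only [M9_mul]; norm_num) (by simp only [M9_mul, M9_T, M9_neg]; norm_num)
  have b1122 := rB _ (M9 0 1 0 1 0 0 0 0 0) (M9 1 0 0 0 (-1) 0 0 0 0) a12 (M9_T _ _ _ _ _ _ _ _ _)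
    (by simp only [M9_mul]; norm_num) (by simp only [M9_mul, M9_T, M9_neg]; norm_num)
  have a13 := rA _ (M9 0 0 0 0 0 0 0 0 1) (M9 0 0 1 0 0 0 (-1) 0 0) b13 (M9_T _ _ _ _ _ _ _ _ _)
    (by simp only [M9_mul, M9_T, M9_neg, M9_add]; norm_num)
  have a23 := rA _ (M9 0 0 0 0 0 0 0 0 1) (M9 0 0 0 0 0 (-1) 0 1 0) b23 (M9_T _ _ _ _ _ _ _ _ _)
    (by simp only [M9_mul, M9_T, M9_neg, M9_add]; norm_num)
  have b31 := rB _ (M9 1 0 0 0 0 0 0 0 0) (M9 0 0 0 0 0 0 (-1) 0 0) a13 (M9_T _ _ _ _ _ _ _ _ _)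
    (by simp only [M9_mul]; norm_num) (by simp only [M9_mul, M9_T, M9_neg]; norm_num)
  have b32 := rB _ (M9 0 0 0 0 1 0 0 0 0) (M9 0 0 0 0 0 0 0 1 0) a23 (M9_T _ _ _ _ _ _ _ _ _)
    (by simp only [M9_mul]; norm_num) (by simp only [M9_mul, M9_T, M9_neg]; norm_num)
  have b1133 := rB _ (M9 0 0 1 0 0 0 1 0 0) (M9 1 0 0 0 0 0 0 0 (-1)) a13 (M9_T _ _ _ _ _ _ _ _ _)
    (by simp only [M9_mul]; norm_num) (by simp only [M9_mul, M9_T, M9_neg]; norm_num)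
  have d12 := rD _ (M9 1 0 0 0 0 0 0 0 0) (M9 0 1 0 (-1) 0 0 0 0 0) b12 (M9_T _ _ _ _ _ _ _ _ _)
    (by simp only [M9_mul, M9_T, M9_neg, M9_add]; norm_num)
  have d13 := rD _ (M9 1 0 0 0 0 0 0 0 0) (M9 0 0 1 0 0 0 (-1) 0 0) b13 (M9_T _ _ _ _ _ _ _ _ _)
    (by simp only [M9_mul, M9_T, M9_neg, M9_add]; norm_num)
  have d23 := rD _ (M9 0 0 0 0 1 0 0 0 0) (M9 0 0 0 0 0 (-1) 0 1 0) b23 (M9_T _ _ _ _ _ _ _ _ _)
    (by simp only [M9_mul, M9_T, M9_neg, M9_add]; norm_num)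
  refine ⟨c, ?_⟩
  have key : ∀ x : W × W → ℚ, A *ᵥ x = c • (e6 ℚ *ᵥ x) := by
    intro x
    obtain ⟨a, b, d, ha, hd, hb, hx⟩ := e6_fixed x
    have h1 : A *ᵥ x = A *ᵥ (e6 ℚ *ᵥ x) := by
      have h2 : A * e6 ℚ = A := by rw [← hA, Matrix.mul_assoc, e6_sq]
      rw [Matrix.mulVec_mulVec, h2]
    rw [h1, hx, ← hK]
    have hb' : b 0 0 = -b 1 1 - b 2 2 := by
      rw [Matrix.trace_fin_three] at hb
      linarith
    have hfin : fromBlocks a b (-bᵀ) d =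
        a 0 1 • fromBlocks (M9 0 1 0 (-1) 0 0 0 0 0) 0 0 0 + (a 0 2 • fromBlocks (M9 0 0 1 0 0 0 (-1) 0 0) 0 0 0 +
        ((-a 1 2) • fromBlocks (M9 0 0 0 0 0 (-1) 0 1 0) 0 0 0 +
        (d 0 1 • fromBlocks 0 0 0 (M9 0 1 0 (-1) 0 0 0 0 0) + (d 0 2 • fromBlocks 0 0 0 (M9 0 0 1 0 0 0 (-1) 0 0) +
        ((-d 1 2) • fromBlocks 0 0 0 (M9 0 0 0 0 0 (-1) 0 1 0) +
        (b 0 1 • fromBlocks 0 (M9 0 1 0 0 0 0 0 0 0) (-(M9 0 1 0 0 0 0 0 0 0)ᵀ) 0 +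
        ((-b 1 0) • fromBlocks 0 (M9 0 0 0 (-1) 0 0 0 0 0) (-(M9 0 0 0 (-1) 0 0 0 0 0)ᵀ) 0 +
        (b 0 2 • fromBlocks 0 (M9 0 0 1 0 0 0 0 0 0) (-(M9 0 0 1 0 0 0 0 0 0)ᵀ) 0 +
        ((-b 1 2) • fromBlocks 0 (M9 0 0 0 0 0 (-1) 0 0 0) (-(M9 0 0 0 0 0 (-1) 0 0 0)ᵀ) 0 +
        ((-b 2 0) • fromBlocks 0 (M9 0 0 0 0 0 0 (-1) 0 0) (-(M9 0 0 0 0 0 0 (-1) 0 0)ᵀ) 0 +
        (b 2 1 • fromBlocks 0 (M9 0 0 0 0 0 0 0 1 0) (-(M9 0 0 0 0 0 0 0 1 0)ᵀ) 0 +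
        ((-b 1 1) • fromBlocks 0 (M9 1 0 0 0 (-1) 0 0 0 0) (-(M9 1 0 0 0 (-1) 0 0 0 0)ᵀ) 0 +
        (-b 2 2) • fromBlocks 0 (M9 1 0 0 0 0 0 0 0 (-1)) (-(M9 1 0 0 0 0 0 0 0 (-1))ᵀ) 0)))))))))))) := by
      obtain ⟨a1, a2, a3, ha1⟩ : ∃ a1 a2 a3, a = M9 0 a1 a2 (-a1) 0 a3 (-a2) (-a3) 0 := ⟨_, _, _, M9_skew ha⟩
      obtain ⟨d1, d2, d3, hd1⟩ : ∃ d1 d2 d3, d = M9 0 d1 d2 (-d1) 0 d3 (-d2) (-d3) 0 := ⟨_, _, _, M9_skew hd⟩
      obtain ⟨b1, b2, b3, b4, b5, b6, b7, b8, hb1⟩ : ∃ b1 b2 b3 b4 b5 b6 b7 b8,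
          b = M9 (-b4 - b8) b1 b2 b3 b4 b5 b6 b7 b8 := by
        have := M9_eta b
        rw [hb'] at this
        exact ⟨_, _, _, _, _, _, _, _, this⟩
      subst ha1 hd1 hb1
      have g01 : ∀ a b c d e f g h k, M9 a b c d e f g h k 0 1 = b := fun _ _ _ _ _ _ _ _ _ => rfl
      have g02 : ∀ a b c d e f g h k, M9 a b c d e f g h k 0 2 = c := fun _ _ _ _ _ _ _ _ _ => rfl
      have g10 : ∀ a b c d e f g h k, M9 a b c d e f g h k 1 0 = d := fun _ _ _ _ _ _ _ _ _ => rfl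
      have g11 : ∀ a b c d e f g h k, M9 a b c d e f g h k 1 1 = e := fun _ _ _ _ _ _ _ _ _ => rfl
      have g12 : ∀ a b c d e f g h k, M9 a b c d e f g h k 1 2 = f := fun _ _ _ _ _ _ _ _ _ => rfl
      have g20 : ∀ a b c d e f g h k, M9 a b c d e f g h k 2 0 = g := fun _ _ _ _ _ _ _ _ _ => rfl
      have g21 : ∀ a b c d e f g h k, M9 a b c d e f g h k 2 1 = h := fun _ _ _ _ _ _ _ _ _ => rfl
      have g22 : ∀ a b c d e f g h k, M9 a b c d e f g h k 2 2 = k := fun _ _ _ _ _ _ _ _ _ => rfl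
      simp only [g01, g02, g10, g11, g12, g20, g21, g22, Matrix.fromBlocks_smul, Matrix.fromBlocks_add, M9_zero, M9_T,
        M9_neg, M9_smul, M9_add]
      congr 1 <;> congr 1 <;> ring
    rw [hfin]
    exact hKadd _ _ (hKsm _ _ a12) (hKadd _ _ (hKsm _ _ a13) (hKadd _ _ (hKsm _ _ a23) (hKadd _ _ (hKsm _ _ d12)
      (hKadd _ _ (hKsm _ _ d13) (hKadd _ _ (hKsm _ _ d23) (hKadd _ _ (hKsm _ _ b12) (hKadd _ _ (hKsm _ _ b21)
      (hKadd _ _ (hKsm _ _ b13) (hKadd _ _ (hKsm _ _ b23) (hKadd _ _ (hKsm _ _ b31) (hKadd _ _ (hKsm _ _ b32)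
      (hKadd _ _ (hKsm _ _ b1122) (hKsm _ _ b1133)))))))))))))
  refine Matrix.toLin'.injective (LinearMap.ext fun x => ?_)
  rw [Matrix.toLin'_apply, Matrix.toLin'_apply, key, Matrix.smul_mulVec]

end SH94
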